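import Pool.Agent.Strip051.LB.B1m2p_pp.Defs

/-! # LINE boxes B1m2p_pp: part 2 -/

namespace Pool.Agent.Strip051.LB.B1m2p_pp

open Pool.Agent.Strip051.Box Pool.Agent.Strip051.Box2

set_option maxRecDepth 100000

theorem c7 : chk f 60 (R2 (R2 (L1 (R2 (L1 (L2 (L2 (L1 b0)))))))) = true := by decide +kernel

theorem c8 : chk f 60 (R1 (R2 (L1 (L2 (L2 (L1 b0)))))) = true := by decide +kernel

theorem c9 : chk f 60 (R1 (L2 (L2 (L1 b0)))) = true := by decide +kernel

theorem c10 : chk f 60 (L1 (L2 (L1 (R2 (L2 (L1 b0)))))) = true := by decide +kernel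

theorem c11 : chk f 60 (L2 (R1 (L2 (L1 (R2 (L2 (L1 b0))))))) = true := by decide +kernel

end Pool.Agent.Strip051.LB.B1m2p_pp
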